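import Pool.Agent.Helper61.KP.Upper

/-!
# The involutions of `K` in representations of its finite quotients
-/

set_option autoImplicit false

open scoped MatrixGroups
open Matrix

namespace Pool.Agent.Results.MP_8ecd4b_al.FixedSpaceBound

open Pool.Agent.Helper79.KF Pool.Agent.Helper61.KT Pool.Agent.Helper61.KP

/-- The space of the vectors fixed by `φ(g)` for all `g` in `K`. -/
def fixedSpace {k : Type*} [Field k] {n : ℕ} (φ : K →* GL (Fin n) k) :
    Submodule k (Fin n → k) where
  carrier := {v | ∀ g : K, (φ g : Matrix (Fin n) (Fin n) k) *ᵥ v = v}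
  zero_mem' := fun g => mulVec_zero _
  add_mem' := by
    intro v w hv hw g
    rw [mulVec_add, hv g, hw g]
  smul_mem' := by
    intro r v hv g
    rw [mulVec_smul, hv g]

/-- Let `k` be a field of characteristic not two, `φ : K → GLₙ(k)` a homomorphism with finite
image and `m` the codimension of the space of the vectors fixed by `K`.  For each of the four
generators `X = C, D, E, F` of order two, the rank of `φ(X) - 1` (the multiplicity of the
eigenvalue `-1` of `φ(X)`) is at least `m / 3` and at most `2 m / 3`. -/
theorem result (k : Type*) [Field k] (h2 : (2 : k) ≠ 0) (n : ℕ) (φ : K →* GL (Fin n) k)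
    (hfin : Finite φ.range) (i : Fin 6) (hi : 2 ≤ i) :
    n - Module.finrank k (fixedSpace φ) ≤
        3 * ((φ (gen i) : Matrix (Fin n) (Fin n) k) - 1).rank ∧
      3 * ((φ (gen i) : Matrix (Fin n) (Fin n) k) - 1).rank ≤
        2 * (n - Module.finrank k (fixedSpace φ)) := by
  obtain ⟨U, hU, hn⟩ := fix_gen h2 φ hfin i hi
  have hle : U ≤ fixedSpace φ := fun u hu g => hU g u hu
  have h1 := Submodule.finrank_mono hle
  have h3 := upper_gen h2 φ (fixedSpace φ) (fun g u hu => hu g) i hi
  constructor <;> omega

end Pool.Agent.Results.MP_8ecd4b_al.FixedSpaceBound
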