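import Pool.Agent.Helper79.KF.Pres

/-!
# Every finite quotient of `K` is generated by the images of `A` and `B`
-/

set_option autoImplicit false

namespace Pool.Agent.Results.MP_8ecd4b_al.GeneratedByTwo

open Pool.Agent.Helper79.KF

/-- Let `Q` be a finite group and `φ : K → Q` a homomorphism. Then the image of `φ` is generated
by `φ(A)` and `φ(B)`. -/
theorem result (Q : Type*) [Group Q] [Finite Q] (φ : K →* Q) :
    φ.range = Subgroup.closure {φ (gen 0), φ (gen 1)} :=
  generated φ

end Pool.Agent.Results.MP_8ecd4b_al.GeneratedByTwo
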