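import Pool.Agent.Helper61.KP.Eight

/-!
# Linear representations of `K` over commutative rings in which two is invertible
-/

set_option autoImplicit false

open scoped MatrixGroups

namespace Pool.Agent.Results.MP_8ecd4b_al.NoEightDimensional

open Pool.Agent.Helper79.KF Pool.Agent.Helper61.KT Pool.Agent.Helper61.KP

/-- Let `R` be a commutative ring in which `2` is a unit and `φ : K → GLₙ(R)` a homomorphism.
Then `φ` is trivial if `n ≤ 8`, and also (for every `n`) if for one of the four generators
`X = C, D, E, F` of order two `φ(X) - 1` is the product `U U'` of an `n × 2` matrix and a `2 × n`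
matrix. -/
theorem result (R : Type*) [CommRing R] (h2 : IsUnit (2 : R)) (n : ℕ) (φ : K →* GL (Fin n) R)
    (h : n ≤ 8 ∨ ∃ (i : Fin 6) (U : Matrix (Fin n) (Fin 2) R) (U' : Matrix (Fin 2) (Fin n) R),
      2 ≤ i ∧ (φ (gen i) : Matrix (Fin n) (Fin n) R) - 1 = U * U') : φ = 1 := by
  rcases h with h | ⟨i, U, U', hi, hU⟩
  · exact trivial_eight h2 h φ
  · exact trivial_one h2 φ i hi hU

end Pool.Agent.Results.MP_8ecd4b_al.NoEightDimensional
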