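import Pool.Agent.Helper61.KP.RingP

/-!
# `K` has no projective representation of degree at most three, and none of degree at most five
in characteristic different from two
-/

set_option autoImplicit false

open scoped MatrixGroups

namespace Pool.Agent.Results.MP_8ecd4b_al.SmallProjectiveDegree

open Pool.Agent.Helper79.KF Pool.Agent.Helper61.KP

/-- Let `R` be a commutative ring. Every homomorphism from `K` to `PGLₙ(R)` is trivial if `n ≤ 3`,
and also if `n ≤ 5` and `2` is a unit of `R`. -/
theorem result (R : Type*) [CommRing R] (n : ℕ) (hn : n ≤ 3 ∨ (n ≤ 5 ∧ IsUnit (2 : R)))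
    (φ : K →* PGL(n, R)) : φ = 1 :=
  pgl_ring hn φ

end Pool.Agent.Results.MP_8ecd4b_al.SmallProjectiveDegree
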